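import Pool.Agent.helper21.BEY.SpecB

set_option autoImplicit false

open Complex MeasureTheory

namespace Pool.Agent.BEY

open Pool.Agent.helper84.DM Pool.Agent.helper78.ED Pool.Agent.DH Pool.Agent.LDH

/-- smooth functions supported in `[1, 2]` -/
def WCB_Sp (p : ℝ → ℝ) : Prop :=
  (∀ n : ℕ, ContDiff ℝ n p) ∧ (∀ x, x ≤ 1 → p x = 0) ∧ ∀ x, 2 ≤ x → p x = 0

/-- the products -/
noncomputable def WCB_F (p : ℝ → ℝ) (a : ℝ) (j : ℕ) (x : ℝ) : ℝ := p x * (x ^ (-a) * Real.log x ^ j)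

theorem WCB_deriv {p : ℝ → ℝ} (hp : WCB_Sp p) : WCB_Sp (deriv p) := by
  obtain ⟨h1, h2, h3⟩ := hp
  have hc : ∀ n : ℕ, ContDiff ℝ n (deriv p) := by
    intro n
    have h4 : ContDiff ℝ ((n : WithTop ℕ∞) + 1) p := by
      have := h1 (n + 1)
      exact_mod_cast this
    exact (contDiff_succ_iff_deriv.1 h4).2.2
  have hcl : IsClosed {x : ℝ | deriv p x = 0} := isClosed_eq (hc 0).continuous continuous_const
  refine ⟨hc, ?_, ?_⟩
  · intro x hx
    have h4 : Set.Iio (1 : ℝ) ⊆ {x : ℝ | deriv p x = 0} := by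
      intro y hy
      have h5 : p =ᶠ[nhds y] fun _ => (0 : ℝ) := by
        filter_upwards [Iio_mem_nhds hy] with z hz
        exact h2 z (le_of_lt hz)
      show deriv p y = 0
      rw [h5.deriv_eq, deriv_const]
    have h6 := closure_minimal h4 hcl
    rw [closure_Iio] at h6
    exact h6 hx
  · intro x hx
    have h4 : Set.Ioi (2 : ℝ) ⊆ {x : ℝ | deriv p x = 0} := by
      intro y hy
      have h5 : p =ᶠ[nhds y] fun _ => (0 : ℝ) := by
        filter_upwards [Ioi_mem_nhds hy] with z hz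
        exact h3 z (le_of_lt hz)
      show deriv p y = 0
      rw [h5.deriv_eq, deriv_const]
    have h6 := closure_minimal h4 hcl
    rw [closure_Ioi] at h6
    exact h6 hx

theorem WCB_bd {p : ℝ → ℝ} (hp : WCB_Sp p) : ∃ S : ℝ, 0 ≤ S ∧ ∀ x, |p x| ≤ S := by
  obtain ⟨h1, h2, h3⟩ := hp
  obtain ⟨S, hS⟩ := (isCompact_Icc (a := (1 : ℝ)) (b := 2)).exists_bound_of_continuousOn (h1 0).continuous.continuousOn
  refine ⟨max S 0, le_max_right _ _, fun x => ?_⟩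
  by_cases hx1 : x ≤ 1
  · rw [h2 x hx1, abs_zero]; exact le_max_right _ _
  by_cases hx2 : 2 ≤ x
  · rw [h3 x hx2, abs_zero]; exact le_max_right _ _
  exact le_trans (hS x ⟨le_of_lt (not_le.1 hx1), le_of_lt (not_le.1 hx2)⟩) (le_max_left _ _)

theorem WCB_hd {p : ℝ → ℝ} (hp : WCB_Sp p) (a : ℝ) (j : ℕ) (x : ℝ) :
    HasDerivAt (WCB_F p a j) (WCB_F (deriv p) a j x + (j * WCB_F p (a + 1) (j - 1) x - a * WCB_F p (a + 1) j x)) x := by
  by_cases hx : 0 < x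
  · have hd : Differentiable ℝ p := (hp.1 1).differentiable (by norm_num)
    have h1 : HasDerivAt p (deriv p x) x := (hd x).hasDerivAt
    have h2 : HasDerivAt (fun y : ℝ => y ^ (-a)) (-a * x ^ (-a - 1)) x := Real.hasDerivAt_rpow_const (Or.inl hx.ne')
    have h3 : HasDerivAt (fun y : ℝ => Real.log y ^ j) (j * Real.log x ^ (j - 1) * x⁻¹) x :=
      (Real.hasDerivAt_log hx.ne').pow j
    have h4 := h1.mul (h2.mul h3)
    have h5 : x ^ (-a - 1) = x ^ (-(a + 1)) := by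
      congr 1; ring
    have h6 : x ^ (-a) * x⁻¹ = x ^ (-(a + 1)) := by
      rw [← Real.rpow_neg_one x, ← Real.rpow_add hx]
      congr 1; ring
    refine h4.congr_deriv ?_
    unfold WCB_F
    rw [h5]
    simp only [Pi.mul_apply]
    have h7 : x ^ (-a) * (j * Real.log x ^ (j - 1) * x⁻¹) = j * (x ^ (-(a + 1)) * Real.log x ^ (j - 1)) := by
      rw [← h6]; ring
    rw [h7]
    ring
  · have hx1 : x < 1 := by linarith [not_lt.1 hx]
    have h5 : WCB_F p a j =ᶠ[nhds x] fun _ => (0 : ℝ) := by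
      filter_upwards [Iio_mem_nhds hx1] with z hz
      unfold WCB_F
      rw [hp.2.1 z (le_of_lt hz), zero_mul]
    have h6 : WCB_F (deriv p) a j x + (j * WCB_F p (a + 1) (j - 1) x - a * WCB_F p (a + 1) j x) = 0 := by
      unfold WCB_F
      rw [hp.2.1 x hx1.le, (WCB_deriv hp).2.1 x hx1.le]
      ring
    rw [h6]
    exact (hasDerivAt_const x (0 : ℝ)).congr_of_eventuallyEq h5

theorem WCB_cd {p : ℝ → ℝ} (hp : WCB_Sp p) (a : ℝ) (j n : ℕ) : ContDiff ℝ n (WCB_F p a j) := by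
  rw [contDiff_iff_contDiffAt]
  intro x
  by_cases hx : 0 < x
  · exact ((hp.1 n).contDiffAt).mul ((Real.contDiffAt_rpow_const_of_ne hx.ne').mul ((Real.contDiffAt_log.2 hx.ne').pow j))
  · have hx1 : x < 1 := by linarith [not_lt.1 hx]
    have h5 : WCB_F p a j =ᶠ[nhds x] fun _ => (0 : ℝ) := by
      filter_upwards [Iio_mem_nhds hx1] with z hz
      unfold WCB_F
      rw [hp.2.1 z (le_of_lt hz), zero_mul]
    exact contDiffAt_const.congr_of_eventuallyEq h5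

theorem WCB_main (i : ℕ) : ∀ (p : ℝ → ℝ), WCB_Sp p → ∀ A : ℝ, 0 ≤ A → ∃ C : ℝ, 0 ≤ C ∧ ∀ (a : ℝ) (j : ℕ) (x : ℝ), 0 ≤ a → a ≤ A →
    |iteratedDeriv i (WCB_F p a j) x| ≤ C * (((j : ℝ) + 1) ^ i * (3 / 4) ^ j) := by
  induction i with
  | zero =>
    intro p hp A _
    obtain ⟨S, hS, hSb⟩ := WCB_bd hp
    refine ⟨S, hS, fun a j x ha _ => ?_⟩
    rw [iteratedDeriv_zero, pow_zero, one_mul]
    unfold WCB_F
    have hq : (0 : ℝ) ≤ S * (3 / 4) ^ j := mul_nonneg hS (by positivity)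
    by_cases hx1 : x ≤ 1
    · rw [hp.2.1 x hx1, zero_mul, abs_zero]; exact hq
    by_cases hx2 : 2 ≤ x
    · rw [hp.2.2 x hx2, zero_mul, abs_zero]; exact hq
    rw [not_le] at hx1 hx2
    rw [abs_mul]
    refine mul_le_mul (hSb x) ?_ (abs_nonneg _) hS
    have h1 : 0 ≤ Real.log x := Real.log_nonneg hx1.le
    have h2 : Real.log x ≤ 3 / 4 := by
      have h3 : Real.log x ≤ Real.log 2 := Real.log_le_log (by linarith) hx2.le
      have h4 := Real.log_two_lt_d9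
      linarith
    have h5 : x ^ (-a) ≤ 1 := Real.rpow_le_one_of_one_le_of_nonpos hx1.le (by linarith)
    have h6 : 0 ≤ x ^ (-a) := Real.rpow_nonneg (by linarith) _
    rw [abs_of_nonneg (mul_nonneg h6 (pow_nonneg h1 j))]
    calc x ^ (-a) * Real.log x ^ j ≤ 1 * (3 / 4) ^ j :=
          mul_le_mul h5 (pow_le_pow_left₀ h1 h2 j) (pow_nonneg h1 j) zero_le_one
      _ = (3 / 4) ^ j := one_mul _
  | succ i ih =>
    intro p hp A hA
    obtain ⟨C1, hC1, hb1⟩ := ih (deriv p) (WCB_deriv hp) A hA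
    obtain ⟨C2, hC2, hb2⟩ := ih p hp (A + 1) (by linarith)
    refine ⟨C1 + C2 * (4 / 3) + A * C2, by positivity, fun a j x ha haA => ?_⟩
    have hder : deriv (WCB_F p a j) = (WCB_F (deriv p) a j) +
        ((fun y => (j : ℝ) * WCB_F p (a + 1) (j - 1) y) - fun y => a * WCB_F p (a + 1) j y) := by
      funext y
      rw [(WCB_hd hp a j y).deriv]
      rfl
    have c1 := (WCB_cd (WCB_deriv hp) a j i).contDiffAt (x := x)
    have c2 := (WCB_cd hp (a + 1) (j - 1) i).contDiffAt (x := x)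
    have c3 := (WCB_cd hp (a + 1) j i).contDiffAt (x := x)
    have c4 : ContDiffAt ℝ i (fun y => (j : ℝ) * WCB_F p (a + 1) (j - 1) y) x := contDiffAt_const.mul c2
    have c5 : ContDiffAt ℝ i (fun y => a * WCB_F p (a + 1) j y) x := contDiffAt_const.mul c3
    have c6 : ContDiffAt ℝ i ((fun y => (j : ℝ) * WCB_F p (a + 1) (j - 1) y) - fun y => a * WCB_F p (a + 1) j y) x :=
      c4.sub c5
    rw [iteratedDeriv_succ', hder, iteratedDeriv_add c1 c6, iteratedDeriv_sub c4 c5,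
      iteratedDeriv_const_mul _ c2, iteratedDeriv_const_mul _ c3]
    have b1 := hb1 a j x ha haA
    have b2 := hb2 (a + 1) (j - 1) x (by linarith) (by linarith)
    have b3 := hb2 (a + 1) j x (by linarith) (by linarith)
    have e1 : ((j : ℝ) + 1) ^ i * (3 / 4 : ℝ) ^ j ≤ ((j : ℝ) + 1) ^ (i + 1) * (3 / 4) ^ j := by
      refine mul_le_mul_of_nonneg_right ?_ (by positivity)
      exact pow_le_pow_right₀ (by linarith [(Nat.cast_nonneg j : (0 : ℝ) ≤ j)]) (Nat.le_succ i)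
    have e2 : (j : ℝ) * ((((j - 1 : ℕ) : ℝ) + 1) ^ i * (3 / 4 : ℝ) ^ (j - 1)) ≤ (4 / 3) * (((j : ℝ) + 1) ^ (i + 1) * (3 / 4) ^ j) := by
      rcases j with _ | j
      · have : (0 : ℝ) ≤ (4 / 3) * ((((0 : ℕ) : ℝ) + 1) ^ (i + 1) * (3 / 4) ^ 0) := by positivity
        simpa using this
      · have h1 : ((j + 1 - 1 : ℕ) : ℝ) = (j : ℝ) := by simp
        rw [h1, Nat.add_sub_cancel]
        push_cast
        have hj : (0 : ℝ) ≤ j := Nat.cast_nonneg j
        have h2 : ((j : ℝ) + 1) * ((j : ℝ) + 1) ^ i ≤ ((j : ℝ) + 1 + 1) ^ (i + 1) := by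
          rw [pow_succ']
          exact mul_le_mul (by linarith) (pow_le_pow_left₀ (by linarith) (by linarith) i) (by positivity) (by positivity)
        have h3 : (4 / 3 : ℝ) * (((j : ℝ) + 1 + 1) ^ (i + 1) * (3 / 4) ^ (j + 1)) = ((j : ℝ) + 1 + 1) ^ (i + 1) * (3 / 4) ^ j := by
          rw [pow_succ (3 / 4 : ℝ) j]; ring
        rw [h3, ← mul_assoc]
        exact mul_le_mul_of_nonneg_right h2 (by positivity)
    have habs : |iteratedDeriv i (WCB_F (deriv p) a j) x +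
        ((j : ℝ) * iteratedDeriv i (WCB_F p (a + 1) (j - 1)) x - a * iteratedDeriv i (WCB_F p (a + 1) j) x)| ≤
        |iteratedDeriv i (WCB_F (deriv p) a j) x| + ((j : ℝ) * |iteratedDeriv i (WCB_F p (a + 1) (j - 1)) x| +
          a * |iteratedDeriv i (WCB_F p (a + 1) j) x|) := by
      refine le_trans (abs_add_le _ _) ?_
      refine add_le_add le_rfl ?_
      refine le_trans (abs_sub _ _) ?_
      rw [abs_mul, abs_mul, abs_of_nonneg (Nat.cast_nonneg j : (0 : ℝ) ≤ j), abs_of_nonneg ha]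
    refine le_trans habs ?_
    have f1 : (j : ℝ) * |iteratedDeriv i (WCB_F p (a + 1) (j - 1)) x| ≤ C2 * (4 / 3) * (((j : ℝ) + 1) ^ (i + 1) * (3 / 4) ^ j) := by
      calc (j : ℝ) * |iteratedDeriv i (WCB_F p (a + 1) (j - 1)) x|
          ≤ (j : ℝ) * (C2 * ((((j - 1 : ℕ) : ℝ) + 1) ^ i * (3 / 4 : ℝ) ^ (j - 1))) :=
            mul_le_mul_of_nonneg_left b2 (Nat.cast_nonneg j)
        _ = C2 * ((j : ℝ) * ((((j - 1 : ℕ) : ℝ) + 1) ^ i * (3 / 4 : ℝ) ^ (j - 1))) := by ring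
        _ ≤ C2 * ((4 / 3) * (((j : ℝ) + 1) ^ (i + 1) * (3 / 4) ^ j)) := mul_le_mul_of_nonneg_left e2 hC2
        _ = _ := by ring
    have f2 : a * |iteratedDeriv i (WCB_F p (a + 1) j) x| ≤ A * C2 * (((j : ℝ) + 1) ^ (i + 1) * (3 / 4) ^ j) := by
      calc a * |iteratedDeriv i (WCB_F p (a + 1) j) x|
          ≤ A * (C2 * (((j : ℝ) + 1) ^ i * (3 / 4 : ℝ) ^ j)) := mul_le_mul haA b3 (abs_nonneg _) hA
        _ ≤ A * (C2 * (((j : ℝ) + 1) ^ (i + 1) * (3 / 4 : ℝ) ^ j)) :=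
            mul_le_mul_of_nonneg_left (mul_le_mul_of_nonneg_left e1 hC2) hA
        _ = _ := by ring
    have f3 : |iteratedDeriv i (WCB_F (deriv p) a j) x| ≤ C1 * (((j : ℝ) + 1) ^ (i + 1) * (3 / 4) ^ j) :=
      le_trans b1 (mul_le_mul_of_nonneg_left e1 hC1)
    calc _ ≤ C1 * (((j : ℝ) + 1) ^ (i + 1) * (3 / 4) ^ j) + (C2 * (4 / 3) * (((j : ℝ) + 1) ^ (i + 1) * (3 / 4) ^ j) +
          A * C2 * (((j : ℝ) + 1) ^ (i + 1) * (3 / 4) ^ j)) := add_le_add f3 (add_le_add f1 f2)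
      _ = _ := by ring

theorem WCB_num : ∃ B : ℝ, 0 ≤ B ∧ ∀ j : ℕ, ((j : ℝ) + 1) ^ 3 * (3 / 4) ^ j ≤ B := by
  have h1 := tendsto_pow_const_mul_const_pow_of_abs_lt_one 3 (r := (3 / 4 : ℝ)) (by rw [abs_of_pos] <;> norm_num)
  obtain ⟨B, hB⟩ := h1.bddAbove_range
  have hB' : ∀ n : ℕ, (n : ℝ) ^ 3 * (3 / 4) ^ n ≤ B := fun n => hB ⟨n, rfl⟩
  have hB0 : 0 ≤ B := by
    have := hB' 0
    norm_num at this
    exact this
  refine ⟨B * (4 / 3), by positivity, fun j => ?_⟩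
  have h2 := hB' (j + 1)
  push_cast at h2
  rw [pow_succ (3 / 4 : ℝ) j] at h2
  linarith

theorem WCB (hPHF : PHF_stmt) : WCB_stmt := by
  obtain ⟨-, -, -, -, -, hz1, hz2, hcd, -, -⟩ := hPHF
  have hp : WCB_Sp psi := ⟨hcd, hz1, hz2⟩
  obtain ⟨B, hB0, hB⟩ := WCB_num
  have hi : ∀ i : ℕ, i ≤ 3 → ∃ C : ℝ, 0 ≤ C ∧ ∀ (a : ℝ) (j : ℕ) (x : ℝ), 0 ≤ a → a ≤ 1 →
      |iteratedDeriv i (WCB_F psi a j) x| ≤ C := by
    intro i hi
    obtain ⟨C, hC, h⟩ := WCB_main i psi hp 1 zero_le_one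
    refine ⟨C * B, mul_nonneg hC hB0, fun a j x ha ha1 => le_trans (h a j x ha ha1) ?_⟩
    refine mul_le_mul_of_nonneg_left (le_trans ?_ (hB j)) hC
    refine mul_le_mul_of_nonneg_right ?_ (by positivity)
    exact pow_le_pow_right₀ (by linarith [(Nat.cast_nonneg j : (0 : ℝ) ≤ j)]) hi
  obtain ⟨C0, hC0, h0⟩ := hi 0 (by norm_num)
  obtain ⟨C1, hC1, h1⟩ := hi 1 (by norm_num)
  obtain ⟨C2, hC2, h2⟩ := hi 2 (by norm_num)
  obtain ⟨C3, hC3, h3⟩ := hi 3 (by norm_num)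
  refine ⟨1 + C0 + C1 + C2 + C3, by linarith, fun σ j hσ0 hσ1 => ?_⟩
  have hK : 0 < 1 + C0 + C1 + C2 + C3 := by linarith
  have hw : (fun x => wj σ j x / (1 + C0 + C1 + C2 + C3)) = fun x => WCB_F psi σ j x / (1 + C0 + C1 + C2 + C3) := rfl
  rw [hw]
  have hfin : ∀ z D : ℝ, |z| ≤ D → D ≤ 1 + C0 + C1 + C2 + C3 → |z / (1 + C0 + C1 + C2 + C3)| ≤ 1 := by
    intro z D hz hD
    rw [abs_div, abs_of_pos hK, div_le_one hK]
    exact le_trans hz hD
  refine ⟨(WCB_cd hp σ j 3).div_const _, ?_, ?_⟩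
  · intro x hx
    have h5 : psi x = 0 := by
      by_cases hx1 : x ≤ 1
      · exact hz1 x hx1
      · refine hz2 x ?_
        by_contra hx2
        exact hx ⟨le_of_lt (not_le.1 hx1), le_of_lt (not_le.1 hx2)⟩
    show psi x * _ / _ = 0
    rw [h5, zero_mul, zero_div]
  · intro x
    rw [iteratedDeriv_div_const, iteratedDeriv_div_const, iteratedDeriv_div_const]
    have h0' := h0 σ j x hσ0 hσ1
    rw [iteratedDeriv_zero] at h0'
    exact ⟨hfin _ _ h0' (by linarith), hfin _ _ (h1 σ j x hσ0 hσ1) (by linarith), hfin _ _ (h2 σ j x hσ0 hσ1) (by linarith),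
      hfin _ _ (h3 σ j x hσ0 hσ1) (by linarith)⟩

end Pool.Agent.BEY
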